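import Pool.Agent.R270.IenvBasic
import Pool.Agent.R270.L1

/-!
# No constant in the quantitative separation from (I)-envelopes
-/

namespace Pool.Agent.Results.MP_1f58a3_an.QuantSep

open Set Filter Topology
open R270.IenvBasic R270.L1
open scoped ENNReal

section defs

variable {𝕜 X : Type*} [RCLike 𝕜] [NormedAddCommGroup X] [NormedSpace 𝕜 X]

/-- The distance of `η` to the (I)-envelope of `A`. -/
noncomputable def d1 (A : Set (StrongDual 𝕜 X)) (η : StrongDual 𝕜 X) : EReal :=
  ((Metric.infEDist η (Ienv A) : ℝ≥0∞) : EReal)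

/-- `inf_k Re η(x_k) - sup_{ξ ∈ A} limsup_k Re ξ(x_k)` for a sequence `x`. -/
noncomputable def sepValue (A : Set (StrongDual 𝕜 X)) (η : StrongDual 𝕜 X) (x : ℕ → X) : EReal :=
  (⨅ k, ((RCLike.re (η (x k)) : ℝ) : EReal)) -
    ⨆ ξ ∈ A, limsup (fun k => ((RCLike.re (ξ (x k)) : ℝ) : EReal)) atTop

/-- The supremum of `sepValue A η x` over all sequences `x` in the closed unit ball. -/
noncomputable def d2 (A : Set (StrongDual 𝕜 X)) (η : StrongDual 𝕜 X) : EReal :=
  ⨆ x ∈ {x : ℕ → X | ∀ k, ‖x k‖ ≤ 1}, sepValue A η x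

end defs

/-- The set of all `i` less than the length of `t` and less than `N` such that the entry `t(i)`
exceeds the threshold at the restriction of `t`. -/
def hitSet (N : ℕ) (α : List ℕ → ℕ) (t : List ℕ) : Finset ℕ :=
  (Finset.range (min t.length N)).filter fun i => α (t.take i) < t.getD i 0

lemma card_hitSet (N : ℕ) (α : List ℕ → ℕ) (t : List ℕ) : (hitSet N α t).card ≤ N := by
  calc (hitSet N α t).card ≤ (Finset.range (min t.length N)).card := Finset.card_filter_le _ _
    _ = min t.length N := Finset.card_range _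
    _ ≤ N := min_le_right _ _

lemma hitSet_append (N : ℕ) (α : List ℕ → ℕ) (t : List ℕ) (ht : t.length < N) (j : ℕ)
    (hj : α t < j) : (hitSet N α (t ++ [j])).card = (hitSet N α t).card + 1 := by
  have h1 : hitSet N α (t ++ [j]) = insert t.length (hitSet N α t) := by
    ext i
    simp only [hitSet, Finset.mem_insert, Finset.mem_filter, Finset.mem_range, List.length_append,
      List.length_singleton]
    constructor
    · rintro ⟨h1, h2⟩
      by_cases hi : i = t.length
      · exact Or.inl hi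
      · right
        have hlt : i < t.length := by omega
        rw [List.take_append_of_le_length hlt.le, List.getD_append _ _ _ _ hlt] at h2
        exact ⟨by omega, h2⟩
    · rintro (rfl | ⟨h1, h2⟩)
      · refine ⟨by omega, ?_⟩
        rw [List.take_append_of_le_length le_rfl, List.take_length,
          List.getD_append_right _ _ _ _ le_rfl]
        simpa using hj
      · have hlt : i < t.length := by omega
        refine ⟨by omega, ?_⟩
        rw [List.take_append_of_le_length hlt.le, List.getD_append _ _ _ _ hlt]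
        exact h2
  rw [h1, Finset.card_insert_of_notMem]
  intro hmem
  simp [hitSet] at hmem

/-- The index set is the set of all finite sequences. -/
abbrev T : Type := List ℕ

/-- The set of functionals. -/
def A (N : ℕ) : Set (StrongDual ℝ (X T)) :=
  {ξ | ∃ α : T → ℕ, ∀ t, ξ (e t) = ((hitSet N α t).card : ℝ) / N}

lemma val_le (N : ℕ) (hN : 0 < N) (α : T → ℕ) (t : T) : |((hitSet N α t).card : ℝ) / N| ≤ 1 := by
  have hN' : (0 : ℝ) < N := by exact_mod_cast hN
  rw [abs_of_nonneg (by positivity), div_le_one hN']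
  exact_mod_cast card_hitSet N α t

/-- Elements of the (I)-envelope have norm at least one half. -/
lemma far (N : ℕ) (hN : 0 < N) (η : StrongDual ℝ (X T)) (hη : η ∈ Ienv (A N)) :
    1 / 2 ≤ ‖η‖ := by
  have hN' : (0 : ℝ) < N := by exact_mod_cast hN
  have hstep : ∀ t : T, t.length < N → ∀ ε : ℝ, 0 < ε →
      ∃ j, η (e t) + (1 / N - ε) ≤ η (e (t ++ [j])) := by
    intro t ht ε hε
    by_contra hcon
    push Not at hcon
    refine Ienv_seq hη (ε / 2) (by positivity)
      (fun j => (1 / 2 : ℝ) • ((e t : X T) - e (t ++ [j]))) (fun j => ?_) ?_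
    · rw [norm_smul]
      have h1 : ‖(e t : X T) - e (t ++ [j])‖ ≤ 2 := by
        calc ‖(e t : X T) - e (t ++ [j])‖ ≤ ‖(e t : X T)‖ + ‖(e (t ++ [j]) : X T)‖ :=
              norm_sub_le _ _
          _ = 2 := by rw [norm_e, norm_e]; norm_num
      have h2 : ‖(1 / 2 : ℝ)‖ = 1 / 2 := by norm_num
      rw [h2]
      linarith
    · rintro ξ ⟨α, hξ⟩
      filter_upwards [eventually_gt_atTop (α t)] with j hj
      simp only [RCLike.re_to_real, map_smul, map_sub, smul_eq_mul]
      rw [hξ, hξ, hitSet_append N α t ht j hj]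
      have h3 := hcon j
      push_cast
      rw [add_div]
      linarith
  -- iterate
  have hiter : ∀ ε : ℝ, 0 < ε → ∀ k : ℕ, k ≤ N → ∃ t : T, t.length = k ∧
      η (e ([] : T)) + k * (1 / N - ε) ≤ η (e t) := by
    intro ε hε k
    induction k with
    | zero => exact fun _ => ⟨[], rfl, by simp⟩
    | succ k ih =>
      intro hk
      obtain ⟨t, ht, h1⟩ := ih (Nat.le_of_succ_le hk)
      obtain ⟨j, hj⟩ := hstep t (by omega) ε hε
      refine ⟨t ++ [j], by simp [ht], ?_⟩
      push_cast
      linarith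
  have hfin : ∀ ε : ℝ, 0 < ε → 1 - N * ε ≤ 2 * ‖η‖ := by
    intro ε hε
    obtain ⟨t, -, ht⟩ := hiter ε hε N le_rfl
    have h1 := (abs_le.1 (abs_le_norm η ([] : T))).1
    have h2 := (abs_le.1 (abs_le_norm η t)).2
    have h3 : (N : ℝ) * (1 / N - ε) = 1 - N * ε := by
      field_simp
    rw [h3] at ht
    linarith
  by_contra hlt
  push Not at hlt
  have h1 := hfin ((1 - 2 * ‖η‖) / (2 * N)) (by
    apply div_pos <;> linarith)
  have h2 : (N : ℝ) * ((1 - 2 * ‖η‖) / (2 * N)) = (1 - 2 * ‖η‖) / 2 := by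
    field_simp
  rw [h2] at h1
  linarith

/-- The Baire lemma with a prescribed initial condition. -/
lemma baire_from {D : Type*} [Countable D] (P : ℕ → Set (D → ℕ)) (hP : ⋃ k, P k = univ)
    (E0 : Finset D) (M : ℕ) :
    ∃ (k : ℕ) (s : D → ℕ) (E : Finset D), E0 ⊆ E ∧ (∀ d ∈ E0, s d = M) ∧
      ∀ (g : D → ℕ) (E' : Finset D),
      (∀ d ∈ E, g d = s d) → ∃ α ∈ P k, (∀ d ∈ E, α d = s d) ∧ ∀ d ∈ E', α d = g d := by
  classical
  set ov : (D → ℕ) → (D → ℕ) := fun α d => if d ∈ E0 then M else α d with hov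
  obtain ⟨k, s, E, h⟩ := baire (fun k => {α | ov α ∈ P k}) (by
    rw [eq_univ_iff_forall]
    intro α
    have : ov α ∈ ⋃ k, P k := by rw [hP]; exact mem_univ _
    obtain ⟨k, hk⟩ := mem_iUnion.1 this
    exact mem_iUnion.2 ⟨k, hk⟩)
  refine ⟨k, ov s, E ∪ E0, Finset.subset_union_right, fun d hd => if_pos hd, ?_⟩
  intro g E' hg
  obtain ⟨α, hα, hα1, hα2⟩ := h (fun d => if d ∈ E then s d else g d) E' (fun d hd => if_pos hd)
  refine ⟨ov α, hα, fun d hd => ?_, fun d hd => ?_⟩
  · by_cases h0 : d ∈ E0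
    · simp only [hov, if_pos h0]
    · have hdE : d ∈ E := (Finset.mem_union.1 hd).resolve_right h0
      simp only [hov, if_neg h0]
      exact hα1 d hdE
  · by_cases h0 : d ∈ E0
    · rw [hg d (Finset.mem_union_right _ h0)]
      simp only [hov, if_pos h0]
    · simp only [hov, if_neg h0]
      rw [hα2 d hd]
      by_cases hdE : d ∈ E
      · rw [if_pos hdE, hg d (Finset.mem_union_left _ hdE)]
        simp only [hov, if_neg h0]
      · rw [if_neg hdE]

/-- The hits on a finite set of nodes. -/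
def hitOn (N : ℕ) (s : T → ℕ) (E : Finset T) (t : T) : Finset ℕ :=
  (hitSet N s t).filter fun i => t.take i ∈ E

/-- All prefixes of the elements of a finite set. -/
def pre (G : Finset T) : Finset T :=
  G.biUnion fun u => (Finset.range (u.length + 1)).image fun i => u.take i

lemma take_mem_pre {G : Finset T} {u : T} (hu : u ∈ G) (i : ℕ) (hi : i ≤ u.length) :
    u.take i ∈ pre G := by
  refine Finset.mem_biUnion.2 ⟨u, hu, Finset.mem_image.2 ⟨i, ?_, rfl⟩⟩
  rw [Finset.mem_range]; omega

/-- For every cover, every finite set `G` of nodes there is a functional in the hull whose hits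
are restricted to a finite set of nodes with high thresholds on all prefixes of nodes of `G`. -/
lemma exists_limit (N : ℕ) (hN : 0 < N) (F : ℕ → Set (StrongDual ℝ (X T)))
    (hF : ⋃ n, F n = A N) (G : Finset T) :
    ∃ (s : T → ℕ) (E : Finset T) (ζ : StrongDual ℝ (X T)),
      ζ ∈ ⋃ k, wcl (convexHull ℝ (F k)) ∧
      (∀ t, ζ (e t) = ((hitOn N s E t).card : ℝ) / N) ∧
      pre G ⊆ E ∧ ∀ d ∈ pre G, s d = G.sup fun u => u.sum := by
  classical
  set fam : (T → ℕ) → StrongDual ℝ (X T) := fun α =>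
    fn (fun t => ((hitSet N α t).card : ℝ) / N) 1 (val_le N hN α) with hfam
  have hfamA : ∀ α, fam α ∈ A N := fun α => ⟨α, fun t => fn_e _ _ _ t⟩
  obtain ⟨k, s, E, hE0, hs, hE⟩ := baire_from (fun k : ℕ => {α : T → ℕ | fam α ∈ F k}) (by
    rw [eq_univ_iff_forall]
    intro α
    have := hfamA α
    rw [← hF] at this
    obtain ⟨k, hk⟩ := mem_iUnion.1 this
    exact mem_iUnion.2 ⟨k, hk⟩) (pre G) (G.sup fun u => u.sum)
  have hex : ∀ p : ℕ, ∃ α : T → ℕ, fam α ∈ F k ∧ (∀ d ∈ E, α d = s d) ∧
      ∀ d, d ∉ E → Encodable.encode d < p → α d = p := by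
    intro p
    obtain ⟨α, hα, hα1, hα2⟩ := hE (fun d => if d ∈ E then s d else p)
      ((Finset.range p).image fun n => ((Encodable.decode n : Option T).getD []))
      (fun d hd => if_pos hd)
    refine ⟨α, hα, hα1, fun d hd hdp => ?_⟩
    rw [hα2 d ?_, if_neg hd]
    refine Finset.mem_image.2 ⟨Encodable.encode d, Finset.mem_range.2 hdp, ?_⟩
    rw [Encodable.encodek]; rfl
  choose α hα1 hα2 hα3 using hex
  have hcb : ∀ t, |((hitOn N s E t).card : ℝ) / N| ≤ 1 := by
    intro t
    have hN' : (0 : ℝ) < N := by exact_mod_cast hN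
    rw [abs_of_nonneg (by positivity), div_le_one hN']
    exact_mod_cast (Finset.card_filter_le _ _).trans (card_hitSet N s t)
  have hlim : ∀ t, Tendsto (fun p => ((hitSet N (α p) t).card : ℝ) / N) atTop
      (𝓝 (((hitOn N s E t).card : ℝ) / N)) := by
    intro t
    refine tendsto_const_nhds.congr' ?_
    have hev : ∀ i ∈ Finset.range (min t.length N), ∀ᶠ p in atTop,
        (α p (t.take i) < t.getD i 0 ↔ (s (t.take i) < t.getD i 0 ∧ t.take i ∈ E)) := by
      intro i _
      by_cases hi : t.take i ∈ E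
      · refine Eventually.of_forall fun p => ?_
        rw [hα2 p _ hi]
        exact ⟨fun h => ⟨h, hi⟩, fun h => h.1⟩
      · filter_upwards [eventually_gt_atTop (max (Encodable.encode (t.take i)) (t.getD i 0))]
          with p hp
        rw [hα3 p _ hi (lt_of_le_of_lt (le_max_left _ _) hp)]
        have h1 : t.getD i 0 < p := lt_of_le_of_lt (le_max_right _ _) hp
        constructor
        · intro h; omega
        · intro h; exact absurd h.2 hi
    have hev' := (Finset.eventually_all _).2 hev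
    filter_upwards [hev'] with p hp
    congr 3
    ext i
    simp only [hitOn, hitSet, Finset.mem_filter, Finset.mem_range]
    constructor
    · rintro ⟨⟨h1, h2⟩, h3⟩
      exact ⟨h1, (hp i (Finset.mem_range.2 h1)).2 ⟨h2, h3⟩⟩
    · rintro ⟨h1, h2⟩
      have h3 := (hp i (Finset.mem_range.2 h1)).1 h2
      exact ⟨⟨h1, h3.1⟩, h3.2⟩
  refine ⟨s, E, fn (fun t => ((hitOn N s E t).card : ℝ) / N) 1 hcb, mem_iUnion.2 ⟨k, ?_⟩,
    fun t => fn_e _ _ _ t, hE0, hs⟩
  refine mem_wcl_of_tendsto _ (fun p => fam (α p)) (fun p => subset_convexHull ℝ _ (hα1 p)) _ ?_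
  intro x
  exact tendsto_fn (fun p t => ((hitSet N (α p) t).card : ℝ) / N) _ 1
    (fun p => val_le N hN (α p)) hcb hlim x

lemma arith (N L : ℝ) (hN : 0 < N) (hL : 0 < L) : (1 / L) * ((N + L) / N) = 1 / N + 1 / L := by
  field_simp
  ring

/-- The combinatorial estimate: only few second hits. -/
lemma comb (N : ℕ) (G : ℕ → Finset T) (s : ℕ → T → ℕ) (E : ℕ → Finset T)
    (hEG : ∀ l l', l < l' → E l ⊆ G l')
    (hs : ∀ l, ∀ d ∈ pre (G l), s l d = (G l).sup fun u => u.sum) (L : ℕ) (t : T) :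
    ∑ l ∈ Finset.range L, (hitOn N (s l) (E l) t).card ≤ N + L := by
  classical
  obtain ⟨H, hH⟩ : ∃ H : ℕ → Finset ℕ, ∀ l, H l = hitOn N (s l) (E l) t := ⟨_, fun _ => rfl⟩
  obtain ⟨R, hR⟩ : ∃ R : ℕ → Finset ℕ, ∀ l, R l = (H l).filter fun i => ∃ i0 ∈ H l, i0 < i :=
    ⟨_, fun _ => rfl⟩
  have hHmem : ∀ l i, i ∈ H l ↔
      (i < min t.length N ∧ s l (t.take i) < t.getD i 0) ∧ t.take i ∈ E l := by
    intro l i
    rw [hH, hitOn, hitSet, Finset.mem_filter, Finset.mem_filter, Finset.mem_range]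
  have hHR : ∀ l, (H l).card ≤ (R l).card + 1 := by
    intro l
    have h2 : (H l \ R l).card ≤ 1 := by
      rw [Finset.card_le_one]
      intro a ha b hb
      rw [Finset.mem_sdiff] at ha hb
      by_contra hne
      rcases lt_or_gt_of_ne hne with hlt | hlt
      · exact hb.2 (by rw [hR]; exact Finset.mem_filter.2 ⟨hb.1, a, ha.1, hlt⟩)
      · exact ha.2 (by rw [hR]; exact Finset.mem_filter.2 ⟨ha.1, b, hb.1, hlt⟩)
    have h3 : (H l).card ≤ (H l \ R l).card + (R l).card := by
      rw [← Nat.sub_le_iff_le_add]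
      exact Finset.le_card_sdiff _ _
    omega
  have hdisj : ∀ l l', l < l' → Disjoint (R l) (R l') := by
    intro l l' hll
    rw [Finset.disjoint_left]
    intro i hi hi'
    rw [hR] at hi hi'
    obtain ⟨hi1, -⟩ := Finset.mem_filter.1 hi
    obtain ⟨hi2, i0, hi0, hlt⟩ := Finset.mem_filter.1 hi'
    rw [hHmem] at hi1 hi0
    have hilen : i < t.length := by omega
    have hmemG : t.take i ∈ G l' := hEG l l' hll hi1.2
    have hlen : (t.take i).length = i := by
      rw [List.length_take]; omega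
    have htake : (t.take i).take i0 = t.take i0 := by
      rw [List.take_take, min_eq_left hlt.le]
    have hpre : t.take i0 ∈ pre (G l') := by
      rw [← htake]
      exact take_mem_pre hmemG i0 (by omega)
    have hsval := hs l' _ hpre
    have hhit := hi0.1.2
    rw [hsval] at hhit
    have h1 : (t.take i).sum ≤ (G l').sup fun u => u.sum :=
      Finset.le_sup (f := fun u : T => u.sum) hmemG
    have h2 : t.getD i0 0 ≤ (t.take i).sum := by
      have h3 : t.getD i0 0 = (t.take i).getD i0 0 := by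
        rw [List.getD_eq_getElem _ _ (by omega), List.getD_eq_getElem _ _ (by omega),
          List.getElem_take]
      rw [h3, List.getD_eq_getElem _ _ (by omega)]
      exact List.le_sum_of_mem (List.getElem_mem _)
    omega
  have hRN : ∑ l ∈ Finset.range L, (R l).card ≤ N := by
    rw [← Finset.card_biUnion]
    · calc ((Finset.range L).biUnion R).card ≤ (Finset.range N).card := by
            refine Finset.card_le_card ?_
            intro i hi
            obtain ⟨l, -, hl⟩ := Finset.mem_biUnion.1 hi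
            rw [hR] at hl
            have h1 := (Finset.mem_filter.1 hl).1
            rw [hHmem] at h1
            rw [Finset.mem_range]
            omega
        _ = N := Finset.card_range N
    · intro l _ l' _ hne
      rcases lt_or_gt_of_ne hne with h | h
      · exact hdisj l l' h
      · exact (hdisj l' l h).symm
  calc ∑ l ∈ Finset.range L, (hitOn N (s l) (E l) t).card
      = ∑ l ∈ Finset.range L, (H l).card := Finset.sum_congr rfl fun l _ => by rw [hH]
    _ ≤ ∑ l ∈ Finset.range L, ((R l).card + 1) := Finset.sum_le_sum fun l _ => hHR l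
    _ = ∑ l ∈ Finset.range L, (R l).card + L := by
        rw [Finset.sum_add_distrib, Finset.sum_const, Finset.card_range, smul_eq_mul, mul_one]
    _ ≤ N + L := by omega

/-- Every cover hull contains functionals of norm at most `1 / N + 1 / L`. -/
lemma exists_small (N : ℕ) (hN : 0 < N) (F : ℕ → Set (StrongDual ℝ (X T)))
    (hF : ⋃ n, F n = A N) (L : ℕ) (hL : 0 < L) :
    ∃ ζ ∈ coverHull F, ‖ζ‖ ≤ 1 / N + 1 / L := by
  classical
  have hN' : (0 : ℝ) < N := by exact_mod_cast hN
  have hL' : (0 : ℝ) < L := by exact_mod_cast hL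
  choose s E ζ hζ1 hζ2 hE hs using exists_limit N hN F hF
  -- the accumulated sets of nodes
  obtain ⟨G, hGsucc⟩ : ∃ G : ℕ → Finset T, ∀ l, G (l + 1) = G l ∪ E (G l) :=
    ⟨fun l => Nat.rec ∅ (fun _ G => G ∪ E G) l, fun l => rfl⟩
  have hGmono : Monotone G := monotone_nat_of_le_succ fun l => by
    rw [hGsucc]; exact Finset.subset_union_left
  have hEG : ∀ l l', l < l' → E (G l) ⊆ G l' := by
    intro l l' h
    refine Finset.Subset.trans ?_ (hGmono (Nat.succ_le_of_lt h))
    rw [Nat.succ_eq_add_one, hGsucc]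
    exact Finset.subset_union_right
  have hmem : ∑ l ∈ Finset.range L, (1 / (L : ℝ)) • ζ (G l) ∈
      convexHull ℝ (⋃ k, wcl (convexHull ℝ (F k))) := by
    refine (convex_convexHull ℝ _).sum_mem (fun i _ => by positivity) ?_
      fun i _ => subset_convexHull ℝ _ (hζ1 _)
    rw [Finset.sum_const, Finset.card_range, nsmul_eq_mul]
    exact mul_one_div_cancel hL'.ne'
  refine ⟨_, subset_closure hmem, norm_le _ _ (by positivity) fun t => ?_⟩
  have e1 : (∑ l ∈ Finset.range L, (1 / (L : ℝ)) • ζ (G l)) (e t) =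
      (1 / (L : ℝ)) * ((∑ l ∈ Finset.range L,
        (hitOn N (s (G l)) (E (G l)) t).card : ℕ) / N : ℝ) := by
    rw [ContinuousLinearMap.sum_apply, Nat.cast_sum, Finset.sum_div, Finset.mul_sum]
    refine Finset.sum_congr rfl fun l _ => ?_
    rw [smul_apply, smul_eq_mul, hζ2]
  have h1 : (∑ l ∈ Finset.range L, (hitOn N (s (G l)) (E (G l)) t).card) ≤ N + L :=
    comb N G (fun l => s (G l)) (fun l => E (G l)) hEG (fun l => hs (G l)) L t
  rw [e1]
  generalize (∑ l ∈ Finset.range L, (hitOn N (s (G l)) (E (G l)) t).card) = m at h1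
  have h2 : (m : ℝ) ≤ N + L := by exact_mod_cast h1
  rw [abs_of_nonneg (by positivity), ← arith N L hN' hL']
  gcongr

lemma d2_le (N : ℕ) (hN : 0 < N) : d2 (A N) 0 ≤ ((1 / N : ℝ) : EReal) := by
  refine iSup₂_le fun x hx => ?_
  unfold sepValue
  have h0 : (⨅ k : ℕ, ((RCLike.re ((0 : StrongDual ℝ (X T)) (x k)) : ℝ) : EReal)) = 0 := by
    simp
  rw [h0, zero_sub, EReal.neg_le]
  by_contra hlt
  push Not at hlt
  obtain ⟨r, hr1, hr2⟩ := EReal.lt_iff_exists_real_btwn.1 hlt
  have hr3 : r < -(1 / N : ℝ) := by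
    rw [← EReal.coe_neg, EReal.coe_lt_coe_iff] at hr2
    exact hr2
  obtain ⟨F, hF, hF2⟩ := exists_cover (A N) 0 (-r) x hx (fun ξ hξ => by
    have h1 : limsup (fun k => ((RCLike.re (ξ (x k)) : ℝ) : EReal)) atTop < (r : EReal) :=
      lt_of_le_of_lt (le_iSup₂ (f := fun (ξ : StrongDual ℝ (X T)) (_ : ξ ∈ A N) =>
        limsup (fun k => ((RCLike.re (ξ (x k)) : ℝ) : EReal)) atTop) ξ hξ) hr1
    filter_upwards [eventually_lt_of_limsup_lt h1] with k hk
    have h2 : RCLike.re (ξ (x k)) < r := by exact_mod_cast hk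
    simp only [zero_apply, map_zero]
    linarith)
  -- contradiction with the small functionals
  obtain ⟨L, hL⟩ := exists_nat_gt (1 / (-r - 1 / N))
  have hpos : 0 < -r - 1 / (N : ℝ) := by linarith
  have hLpos : 0 < (L : ℝ) := lt_trans (by positivity) hL
  obtain ⟨ζ, hζ1, hζ2⟩ := exists_small N hN F hF L (by exact_mod_cast hLpos)
  have h3 := hF2 ζ hζ1
  rw [zero_sub, norm_neg] at h3
  have h4 : 1 / (L : ℝ) < -r - 1 / N := by
    rw [div_lt_iff₀ hLpos]
    rw [div_lt_iff₀ hpos] at hL
    linarith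
  linarith

lemma le_d1 (N : ℕ) (hN : 0 < N) : ((1 / 2 : ℝ) : EReal) ≤ d1 (A N) 0 := by
  unfold d1
  have h1 : ENNReal.ofReal (1 / 2) ≤ Metric.infEDist 0 (Ienv (A N)) := by
    rw [Metric.le_infEDist]
    intro η hη
    rw [edist_dist, dist_eq_norm, zero_sub, norm_neg]
    exact ENNReal.ofReal_le_ofReal (far N hN η hη)
  calc ((1 / 2 : ℝ) : EReal) = ((ENNReal.ofReal (1 / 2) : ℝ≥0∞) : EReal) := by
        rw [EReal.coe_ennreal_ofReal, max_eq_left (by norm_num)]
    _ ≤ _ := EReal.coe_ennreal_le_coe_ennreal_iff.2 h1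

/-- **Answer to Q1 (negative).** There is no constant `c ≥ 1` such that `d1 ≤ c d2` for all
(real) Banach spaces `X`, all sets `A` in the dual and all functionals `η`. -/
theorem result : ¬ ∃ c : ℝ, 1 ≤ c ∧ ∀ (X : Type) [NormedAddCommGroup X] [NormedSpace ℝ X]
    [CompleteSpace X] (A : Set (StrongDual ℝ X)) (η : StrongDual ℝ X),
    d1 A η ≤ (c : EReal) * d2 A η := by
  rintro ⟨c, hc, h⟩
  obtain ⟨N, hN⟩ := exists_nat_gt (2 * c)
  have hN' : (0 : ℝ) < N := by linarith
  have hNpos : 0 < N := by exact_mod_cast hN'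
  have h1 := h (X T) (A N) 0
  have h2 : (c : EReal) * d2 (A N) 0 ≤ (c : EReal) * ((1 / N : ℝ) : EReal) :=
    mul_le_mul_of_nonneg_left (d2_le N hNpos) (by exact_mod_cast (by linarith : (0 : ℝ) ≤ c))
  have h3 := ((le_d1 N hNpos).trans h1).trans h2
  rw [← EReal.coe_mul, EReal.coe_le_coe_iff] at h3
  have h4 : c * (1 / (N : ℝ)) < 1 / 2 := by
    rw [mul_one_div, div_lt_iff₀ hN']
    linarith
  linarith

end Pool.Agent.Results.MP_1f58a3_an.QuantSep
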